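import Mathlib
import Pool.Agent.PatSturm.Final

set_option autoImplicit false

/-!
# All recurrent pattern Sturmian sequences, single-sided and double-sided

The two classes are the codings of irrational rotations by intervals (`IntervalCoding`) and the
arc-Toeplitz sequences (`ArcToeplitz`); no sequence belongs to both classes.

The two classifications are theorems of the starting library (`Pool.Agent.PatSturm.Final`, modules
`full_result` and `main_holds`; the structure theory is in `Pool.Agent.Helper434`), which had not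
been handed in for this problem; the part about the disjointness of the two classes is proved here.
-/

namespace Pool.Agent.Results.MP_2825c1_co.FullClassification

open Pool.Agent.PatSturm.Statement

/-- An irrational rotation enters the interval `(β, 1)`. -/
lemma exists_fract_gt {δ : ℝ} (hδ : Irrational δ) (θ : ℝ) {β : ℝ} (h0 : 0 < β) (h1 : β < 1) :
    ∃ j : ℤ, β < Int.fract (j * δ + θ) := by
  have hd : Dense ((AddSubgroup.closure {δ, 1} : AddSubgroup ℝ) : Set ℝ) := by
    rw [dense_addSubgroupClosure_pair_iff]
    simpa using hδ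
  obtain ⟨g, hg, hgm⟩ := hd.exists_mem_open (isOpen_Ioo (a := β - θ) (b := 1 - θ))
    (Set.nonempty_Ioo.2 (by linarith))
  rw [SetLike.mem_coe, AddSubgroup.mem_closure_pair] at hg
  obtain ⟨j, k, rfl⟩ := hg
  refine ⟨j, ?_⟩
  have h2 : Int.fract (j * δ + θ) = Int.fract (j • δ + k • (1 : ℝ) + θ) := by
    have : (j • δ + k • (1 : ℝ) + θ) = (j * δ + θ) + (k : ℝ) := by
      simp only [zsmul_eq_mul, mul_one]
      ring
    rw [this, Int.fract_add_intCast]
  rw [h2]
  obtain ⟨h3, h4⟩ := hgm
  have h5 : Int.fract (j • δ + k • (1 : ℝ) + θ) = j • δ + k • (1 : ℝ) + θ := by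
    rw [Int.fract_eq_self]
    constructor <;> linarith
  rw [h5]
  linarith

/-- The two classes are disjoint. -/
lemma not_both (X : ℤ → Bool) : ¬ (IntervalCoding X ∧ ArcToeplitz X) := by
  rintro ⟨⟨α, β, θ, hα, hβ0, hβ1, hX⟩,
    ⟨N, r, c, u, a, hN0, hNlt, hNd, hr, hct, -, -, -, -, -, hT⟩⟩
  have hNpos : ∀ k, 0 < N k := by
    intro k
    induction k with
    | zero => omega
    | succ k ih => exact ih.trans (hNlt k)
  obtain ⟨k, -, hk⟩ := hct 0
  -- on the class `r (k + 1) + N k` modulo `N (k + 1)` the sequence is constantly one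
  have hcon : ∀ j : ℤ, X (r (k + 1) + N k + j * N (k + 1)) = true := by
    intro j
    rw [← hk]
    apply hT k
    · have h1 : r (k + 1) + N k + j * N (k + 1) - r k =
          (r (k + 1) - r k) + N k + j * N (k + 1) := by ring
      rw [h1]
      exact dvd_add (dvd_add (hr k) dvd_rfl) (Dvd.dvd.mul_left (hNd k) j)
    · intro h
      have h1 : r (k + 1) + N k + j * N (k + 1) - r (k + 1) = N k + j * N (k + 1) := by ring
      rw [h1, dvd_add_left (Dvd.intro_left j rfl)] at h
      exact absurd (Int.le_of_dvd (hNpos k) h) (not_le.2 (hNlt k))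
  have hirr : Irrational ((N (k + 1) : ℝ) * α) := by
    have := hα.intCast_mul (m := N (k + 1)) (hNpos (k + 1)).ne'
    exact this
  obtain ⟨j, hj⟩ := exists_fract_gt hirr (((r (k + 1) + N k : ℤ) : ℝ) * α + θ) hβ0 hβ1
  have h2 := (hX _).1 (hcon j)
  have h3 : (((r (k + 1) + N k + j * N (k + 1) : ℤ)) : ℝ) * α + θ =
      j * ((N (k + 1) : ℝ) * α) + (((r (k + 1) + N k : ℤ) : ℝ) * α + θ) := by
    push_cast
    ring
  rw [h3] at h2
  linarith

/-- **The recurrent pattern Sturmian sequences.** (1) A double-sided sequence `x` is recurrent and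
has `p^*(n) = 2 n` for all `n ≥ 1` if and only if it arises by renaming the two letters of a coding
of an irrational rotation by an interval, or of an arc-Toeplitz sequence. (2) A single-sided
sequence has these properties if and only if it is the restriction to `m ≥ 1` of such a double-sided
sequence. (3) No sequence belongs to both classes. -/
theorem result :
    (∀ {A : Type} (x : ℤ → A), (Recurrent x ∧ PatternSturmian x) ↔
      ∃ (p q : A) (X : ℤ → Bool), p ≠ q ∧ (IntervalCoding X ∨ ArcToeplitz X) ∧
        ∀ m : ℤ, x m = if X m = true then p else q) ∧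
    (∀ {A : Type} (x : ℕ → A), (Recurrent₁ x ∧ PatternSturmian₁ x) ↔
      ∃ (p q : A) (X : ℤ → Bool), p ≠ q ∧ (IntervalCoding X ∨ ArcToeplitz X) ∧
        ∀ m : ℕ, 1 ≤ m → x m = if X m = true then p else q) ∧
    (∀ X : ℤ → Bool, ¬ (IntervalCoding X ∧ ArcToeplitz X)) :=
  ⟨(Pool.Agent.PatSturm.Final.full_result Pool.Agent.PatSturm.Final.main_holds).1,
    (Pool.Agent.PatSturm.Final.full_result Pool.Agent.PatSturm.Final.main_holds).2, not_both⟩

end Pool.Agent.Results.MP_2825c1_co.FullClassification
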